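import Mathlib

/-!
# The zero-one law for Maker-Breaker percolation games fails

We exhibit an infinite connected graph on which Breaker wins the `(21, 6)`-percolation game from every
root, but on which Maker wins from a suitable root after a finite head start.

The board is a tree-like graph: the hubs are the finite words over an alphabet with `9` letters, and a
hub `a :: w` is joined to the hub `w` by a path with `22` edges (the hub `[]` also carries a cycle with
`22` edges).

* Without a head start Maker reaches at most one new hub in two turns, and Breaker can arrange that she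
  does not get a further one in the third turn, after which he cuts off everything.
* When Maker owns many arms she advances `21` of them by one edge, and then completes one advanced arm
  in each of the next three turns. Each cycle of four turns gives three new hubs, i.e. `24` new arms,
  which is what Breaker kills in the meantime.
-/

set_option autoImplicit false

namespace Pool.Agent.Results.MP_aefbf4_co.ZeroOneLawFails

/-! ## The percolation game -/

section Game

variable {V : Type}

/-- The edges which Breaker claims in turn `n` (the turns are counted from `0`) when he uses the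
strategy `τ` and Maker claims the sets of edges `X 0, X 1, X 2, ...`: a strategy of Breaker is a
function of the list of the sets claimed by Maker so far. -/
def reply (τ : List (Finset (Sym2 V)) → Finset (Sym2 V)) (X : ℕ → Finset (Sym2 V)) (n : ℕ) :
    Finset (Sym2 V) :=
  τ ((List.range (n + 1)).map X)

/-- The claim `X n` of Maker in turn `n` is legal: it consists of exactly `p` edges of `G`, none of
which was claimed before. Here `M` and `B` are the sets of the edges which count as claimed by Maker
and by Breaker before the first turn. -/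
def MakerLegal (G : SimpleGraph V) (p : ℕ) (M B : Finset (Sym2 V))
    (τ : List (Finset (Sym2 V)) → Finset (Sym2 V)) (X : ℕ → Finset (Sym2 V)) (n : ℕ) : Prop :=
  (X n).card = p ∧ ∀ e ∈ X n, e ∈ G.edgeSet ∧ e ∉ M ∧ e ∉ B ∧
    (∀ i < n, e ∉ X i) ∧ ∀ i < n, e ∉ reply τ X i

/-- The claim of Breaker in turn `n` is legal: it consists of exactly `q` edges of `G`, none of which
was claimed before. -/
def BreakerLegal (G : SimpleGraph V) (q : ℕ) (M B : Finset (Sym2 V))
    (τ : List (Finset (Sym2 V)) → Finset (Sym2 V)) (X : ℕ → Finset (Sym2 V)) (n : ℕ) : Prop :=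
  (reply τ X n).card = q ∧ ∀ e ∈ reply τ X n, e ∈ G.edgeSet ∧ e ∉ M ∧ e ∉ B ∧
    (∀ i ≤ n, e ∉ X i) ∧ ∀ i < n, e ∉ reply τ X i

/-- The vertex set of the connected component of `v` in the graph obtained from `G` by deleting the
edges in `B`. -/
def cluster (G : SimpleGraph V) (B : Set (Sym2 V)) (v : V) : Set V :=
  {u | (G.deleteEdges B).Reachable v u}

/-- Breaker has a winning strategy in the `(p, q)`-percolation game on `(G, v)` in which the edges of
`M` and `B` count as claimed by Maker and by Breaker before the first turn: a strategy `τ` such that,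
whenever all the claims of Maker are legal, there is a stage `n` such that the claims of Breaker in the
first `n` turns are legal, and the component of `v` is finite after deletion of the edges claimed by
Breaker before and in these turns. -/
def BreakerWinsFrom (G : SimpleGraph V) (p q : ℕ) (v : V) (M B : Finset (Sym2 V)) : Prop :=
  ∃ τ : List (Finset (Sym2 V)) → Finset (Sym2 V), ∀ X : ℕ → Finset (Sym2 V),
    (∀ n, MakerLegal G p M B τ X n) →
      ∃ n, (∀ i < n, BreakerLegal G q M B τ X i) ∧
        (cluster G {e | e ∈ B ∨ ∃ i < n, e ∈ reply τ X i} v).Finite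

/-- Breaker has a winning strategy in the `(p, q)`-percolation game on `(G, v)` with head start `F`. -/
def BreakerWins (G : SimpleGraph V) (p q : ℕ) (v : V) (F : Finset (Sym2 V)) : Prop :=
  BreakerWinsFrom G p q v F ∅

lemma winsFrom_of_finite {G : SimpleGraph V} {p q : ℕ} {v : V} {M B : Finset (Sym2 V)}
    (h : (cluster G (B : Set (Sym2 V)) v).Finite) : BreakerWinsFrom G p q v M B := by
  refine ⟨fun _ => ∅, fun X _ => ⟨0, fun i hi => absurd hi (Nat.not_lt_zero i), ?_⟩⟩
  have : {e | e ∈ B ∨ ∃ i < 0, e ∈ reply (fun _ => ∅) X i} = (B : Set (Sym2 V)) := by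
    ext e
    simp
  rw [this]
  exact h

variable [DecidableEq (Sym2 V)]

/-- A claim which is legal in the position `(M, B)` -/
def LegalX (G : SimpleGraph V) (p : ℕ) (M B X : Finset (Sym2 V)) : Prop :=
  X.card = p ∧ ∀ e ∈ X, e ∈ G.edgeSet ∧ e ∉ M ∧ e ∉ B

lemma winsFrom_of_turn {G : SimpleGraph V} {p q : ℕ} {v : V} {M B : Finset (Sym2 V)}
    (h : ∀ X, LegalX G p M B X → ∃ Y, LegalX G q (M ∪ X) B Y ∧
      BreakerWinsFrom G p q v (M ∪ X) (B ∪ Y)) : BreakerWinsFrom G p q v M B := by
  classical
  have h' : ∀ X : Finset (Sym2 V), ∃ (Y : Finset (Sym2 V))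
      (τ : List (Finset (Sym2 V)) → Finset (Sym2 V)), LegalX G p M B X →
      LegalX G q (M ∪ X) B Y ∧ ∀ X' : ℕ → Finset (Sym2 V),
        (∀ n, MakerLegal G p (M ∪ X) (B ∪ Y) τ X' n) →
        ∃ n, (∀ i < n, BreakerLegal G q (M ∪ X) (B ∪ Y) τ X' i) ∧
          (cluster G {e | e ∈ B ∪ Y ∨ ∃ i < n, e ∈ reply τ X' i} v).Finite := by
    intro X
    by_cases hX : LegalX G p M B X
    · obtain ⟨Y, hY, τ, hτ⟩ := h X hX
      exact ⟨Y, τ, fun _ => ⟨hY, hτ⟩⟩
    · exact ⟨∅, fun _ => ∅, fun h => absurd h hX⟩
  choose f g hfg using h'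
  set τ : List (Finset (Sym2 V)) → Finset (Sym2 V) := fun l =>
    match l with
    | [] => ∅
    | X :: l' => if l' = [] then f X else g X l' with hτ
  refine ⟨τ, fun X hX => ?_⟩
  set X' : ℕ → Finset (Sym2 V) := fun i => X (i + 1) with hX'
  have r0 : reply τ X 0 = f (X 0) := by
    simp [reply, hτ]
  have rs : ∀ n, reply τ X (n + 1) = reply (g (X 0)) X' n := by
    intro n
    have e1 : (List.range (n + 1 + 1)).map X = X 0 :: (List.range (n + 1)).map X' := by
      rw [List.range_succ_eq_map, List.map_cons, List.map_map]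
      rfl
    unfold reply
    rw [e1, hτ]
    simp only
    rw [if_neg]
    intro h
    have := congrArg List.length h
    simp at this
  have hL0 : LegalX G p M B (X 0) := by
    obtain ⟨h1, h2⟩ := hX 0
    exact ⟨h1, fun e he => ⟨(h2 e he).1, (h2 e he).2.1, (h2 e he).2.2.1⟩⟩
  obtain ⟨hY, hw⟩ := hfg (X 0) hL0
  obtain ⟨n, hn1, hn2⟩ := hw X' (by
    intro n
    obtain ⟨h1, h2⟩ := hX (n + 1)
    refine ⟨h1, fun e he => ?_⟩
    obtain ⟨h3, h4, h5, h6, h7⟩ := h2 e he
    refine ⟨h3, ?_, ?_, fun i hi => h6 (i + 1) (by omega), fun i hi => ?_⟩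
    · rw [Finset.mem_union, not_or]
      exact ⟨h4, h6 0 (by omega)⟩
    · rw [Finset.mem_union, not_or]
      refine ⟨h5, ?_⟩
      have := h7 0 (by omega)
      rwa [r0] at this
    · have := h7 (i + 1) (by omega)
      rwa [rs i] at this)
  refine ⟨n + 1, fun i hi => ?_, ?_⟩
  · rcases i with _ | i
    · refine ⟨by rw [r0]; exact hY.1, fun e he => ?_⟩
      rw [r0] at he
      obtain ⟨h1, h2, h3⟩ := hY.2 e he
      rw [Finset.mem_union, not_or] at h2
      refine ⟨h1, h2.1, h3, fun i hi => ?_, fun i hi => absurd hi (Nat.not_lt_zero i)⟩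
      have : i = 0 := by omega
      rw [this]
      exact h2.2
    · obtain ⟨h1, h2⟩ := hn1 i (by omega)
      refine ⟨by rw [rs]; exact h1, fun e he => ?_⟩
      rw [rs] at he
      obtain ⟨h3, h4, h5, h6, h7⟩ := h2 e he
      rw [Finset.mem_union, not_or] at h4 h5
      refine ⟨h3, h4.1, h5.1, fun j hj => ?_, fun j hj => ?_⟩
      · rcases j with _ | j
        · exact h4.2
        · exact h6 j (by omega)
      · rcases j with _ | j
        · rw [r0]; exact h5.2
        · rw [rs]; exact h7 j (by omega)
  · have : {e | e ∈ B ∨ ∃ i < n + 1, e ∈ reply τ X i} =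
        {e | e ∈ B ∪ f (X 0) ∨ ∃ i < n, e ∈ reply (g (X 0)) X' i} := by
      ext e
      simp only [Set.mem_ofPred_eq, Finset.mem_union]
      constructor
      · rintro (h | ⟨i, hi, h⟩)
        · exact Or.inl (Or.inl h)
        · rcases i with _ | i
          · rw [r0] at h; exact Or.inl (Or.inr h)
          · rw [rs] at h; exact Or.inr ⟨i, by omega, h⟩
      · rintro ((h | h) | ⟨i, hi, h⟩)
        · exact Or.inl h
        · exact Or.inr ⟨0, by omega, by rw [r0]; exact h⟩
        · exact Or.inr ⟨i + 1, by omega, by rw [rs]; exact h⟩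
    rw [this]
    exact hn2

/-- If Maker can maintain a property of the position which excludes a finite component, then Breaker
has no winning strategy. -/
lemma not_winsFrom {G : SimpleGraph V} {p q : ℕ} {v : V}
    (P : Finset (Sym2 V) → Finset (Sym2 V) → Prop)
    (hinf : ∀ M B : Finset (Sym2 V), ∃ X, LegalX G p M B X)
    (h1 : ∀ M B, P M B → ¬ (cluster G (B : Set (Sym2 V)) v).Finite)
    (h2 : ∀ M B, P M B → ∃ X, LegalX G p M B X ∧ ∀ Y, LegalX G q (M ∪ X) B Y → P (M ∪ X) (B ∪ Y))
    {M B : Finset (Sym2 V)} (hP : P M B) : ¬ BreakerWinsFrom G p q v M B := by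
  classical
  rintro ⟨τ, hτ⟩
  have h3 : ∀ M B : Finset (Sym2 V), ∃ X, LegalX G p M B X ∧
      (P M B → ∀ Y, LegalX G q (M ∪ X) B Y → P (M ∪ X) (B ∪ Y)) := by
    intro M B
    by_cases hP : P M B
    · obtain ⟨X, hX, hX'⟩ := h2 M B hP
      exact ⟨X, hX, fun _ => hX'⟩
    · obtain ⟨X, hX⟩ := hinf M B
      exact ⟨X, hX, fun h => absurd h hP⟩
  choose χ hχ1 hχ2 using h3
  -- the states of the play: Maker's set, Breaker's set, list of Maker's claims
  set S : ℕ → Finset (Sym2 V) × Finset (Sym2 V) × List (Finset (Sym2 V)) := fun n =>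
    Nat.rec (M, B, []) (fun _ s => (s.1 ∪ χ s.1 s.2.1, s.2.1 ∪ τ (s.2.2 ++ [χ s.1 s.2.1]),
      s.2.2 ++ [χ s.1 s.2.1])) n with hS
  have hS0 : S 0 = (M, B, []) := rfl
  have hSs : ∀ n, S (n + 1) = ((S n).1 ∪ χ (S n).1 (S n).2.1,
      (S n).2.1 ∪ τ ((S n).2.2 ++ [χ (S n).1 (S n).2.1]),
      (S n).2.2 ++ [χ (S n).1 (S n).2.1]) := fun n => rfl
  set X : ℕ → Finset (Sym2 V) := fun n => χ (S n).1 (S n).2.1 with hX
  have hlist : ∀ n, (S n).2.2 = (List.range n).map X := by
    intro n
    induction n with
    | zero => rw [hS0]; rfl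
    | succ n ih =>
      rw [hSs, List.range_succ, List.map_append, ← ih]
      rfl
  have hreply : ∀ n, reply τ X n = τ ((S n).2.2 ++ [χ (S n).1 (S n).2.1]) := by
    intro n
    unfold reply
    rw [← hlist (n + 1), hSs]
  have hM : ∀ n e, e ∈ (S n).1 ↔ (e ∈ M ∨ ∃ i < n, e ∈ X i) := by
    intro n
    induction n with
    | zero => intro e; rw [hS0]; simp
    | succ n ih =>
      intro e
      rw [hSs]
      simp only [Finset.mem_union, ih e]
      constructor
      · rintro ((h | ⟨i, hi, h⟩) | h)
        · exact Or.inl h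
        · exact Or.inr ⟨i, by omega, h⟩
        · exact Or.inr ⟨n, by omega, h⟩
      · rintro (h | ⟨i, hi, h⟩)
        · exact Or.inl (Or.inl h)
        · rcases Nat.lt_succ_iff_lt_or_eq.1 hi with h' | rfl
          · exact Or.inl (Or.inr ⟨i, h', h⟩)
          · exact Or.inr h
  have hB : ∀ n e, e ∈ (S n).2.1 ↔ (e ∈ B ∨ ∃ i < n, e ∈ reply τ X i) := by
    intro n
    induction n with
    | zero => intro e; rw [hS0]; simp
    | succ n ih =>
      intro e
      rw [hSs]
      simp only [Finset.mem_union, ih e]
      rw [← hreply n]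
      constructor
      · rintro ((h | ⟨i, hi, h⟩) | h)
        · exact Or.inl h
        · exact Or.inr ⟨i, by omega, h⟩
        · exact Or.inr ⟨n, by omega, h⟩
      · rintro (h | ⟨i, hi, h⟩)
        · exact Or.inl (Or.inl h)
        · rcases Nat.lt_succ_iff_lt_or_eq.1 hi with h' | rfl
          · exact Or.inl (Or.inr ⟨i, h', h⟩)
          · exact Or.inr h
  obtain ⟨n, hn1, hn2⟩ := hτ X (by
    intro n
    obtain ⟨h4, h5⟩ := hχ1 (S n).1 (S n).2.1
    refine ⟨h4, fun e he => ?_⟩
    obtain ⟨h6, h7, h8⟩ := h5 e he
    rw [hM, not_or] at h7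
    rw [hB, not_or] at h8
    push Not at h7 h8
    exact ⟨h6, h7.1, h8.1, h7.2, h8.2⟩)
  have hPn : ∀ i ≤ n, P (S i).1 (S i).2.1 := by
    intro i
    induction i with
    | zero => intro _; rw [hS0]; exact hP
    | succ i ih =>
      intro hi
      rw [hSs]
      refine hχ2 _ _ (ih (by omega)) _ ?_
      rw [← hreply i]
      obtain ⟨h4, h5⟩ := hn1 i (by omega)
      refine ⟨h4, fun e he => ?_⟩
      obtain ⟨h6, h7, h8, h9, h10⟩ := h5 e he
      refine ⟨h6, ?_, ?_⟩
      · rw [Finset.mem_union, hM]
        rintro ((h | ⟨j, hj, h⟩) | h)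
        · exact h7 h
        · exact h9 j (by omega) h
        · exact h9 i le_rfl h
      · rw [hB]
        rintro (h | ⟨j, hj, h⟩)
        · exact h8 h
        · exact h10 j hj h
  apply h1 _ _ (hPn n le_rfl)
  have : ((S n).2.1 : Set (Sym2 V)) = {e | e ∈ B ∨ ∃ i < n, e ∈ reply τ X i} := by
    ext e
    rw [Finset.mem_coe, hB]
    rfl
  rw [this]
  exact hn2

end Game

/-! ## The board -/

section Board

/-- the vertices: the pair `(w, 0)` is the hub `w`, and the pairs `(w, i)` with `1 ≤ i ≤ 21` are the
inner vertices of the path from the hub `w` to the hub `w.tail` -/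
abbrev Vx : Type := List (Fin 9) × Fin 22

/-- the next vertex on the way from the hub `w` to the hub `w.tail` -/
def up (x : Vx) : Vx := if h : x.2.val < 21 then (x.1, ⟨x.2.val + 1, by omega⟩) else (x.1.tail, 0)

lemma up_of_lt {x : Vx} (h : x.2.val < 21) : (up x).1 = x.1 ∧ (up x).2.val = x.2.val + 1 := by
  unfold up
  rw [dif_pos h]
  exact ⟨rfl, rfl⟩

lemma up_of_not_lt {x : Vx} (h : ¬ x.2.val < 21) : up x = (x.1.tail, 0) := by
  unfold up
  rw [dif_neg h]

lemma up_ne (x : Vx) : up x ≠ x := by
  by_cases h : x.2.val < 21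
  · intro e
    have := (up_of_lt h).2
    rw [e] at this
    omega
  · intro e
    rw [up_of_not_lt h] at e
    have : x.2.val = 0 := by rw [← e]; rfl
    omega

lemma up_up_ne (x : Vx) : up (up x) ≠ x := by
  intro e
  by_cases h : x.2.val < 21
  · have h1 := (up_of_lt h).2
    by_cases h2 : (up x).2.val < 21
    · have h3 := (up_of_lt h2).2
      rw [e] at h3
      omega
    · have h3 := up_of_not_lt h2
      rw [e] at h3
      have : x.2.val = 0 := by rw [h3]; rfl
      omega
  · have h1 := up_of_not_lt h
    have h2 : (up x).2.val = 0 := by rw [h1]; rfl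
    have h3 := (up_of_lt (x := up x) (by omega)).2
    rw [e] at h3
    omega

/-- the board -/
def T : SimpleGraph Vx where
  Adj x y := up x = y ∨ up y = x
  symm := ⟨fun _ _ h => h.symm⟩
  loopless := ⟨fun x h => by
    rcases h with h | h <;> exact up_ne x h⟩

/-- the edge from `x` to the next vertex -/
def ed (x : Vx) : Sym2 Vx := s(x, up x)

lemma ed_mem (x : Vx) : ed x ∈ T.edgeSet := by
  rw [ed, SimpleGraph.mem_edgeSet]
  exact Or.inl rfl

lemma ed_injective : Function.Injective ed := by
  intro x y h
  rw [ed, ed, Sym2.eq_iff] at h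
  rcases h with ⟨h, -⟩ | ⟨h1, h2⟩
  · exact h
  · exfalso
    rw [h1] at h2
    exact up_up_ne y h2

lemma ed_surj {e : Sym2 Vx} (he : e ∈ T.edgeSet) : ∃ x, e = ed x := by
  induction e using Sym2.ind with
  | _ u v =>
    rw [SimpleGraph.mem_edgeSet] at he
    rcases he with h | h
    · exact ⟨u, by rw [ed, h]⟩
    · exact ⟨v, by rw [ed, h, Sym2.eq_swap]⟩

lemma edgeSet_infinite : (T.edgeSet).Infinite :=
  Set.infinite_of_injective_forall_mem ed_injective ed_mem

/-- A set of free edges can be completed to a legal claim. -/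
lemma fill (n : ℕ) (M B Y : Finset (Sym2 Vx)) (hY : ∀ e ∈ Y, e ∈ T.edgeSet ∧ e ∉ M ∧ e ∉ B)
    (hn : Y.card ≤ n) : ∃ Z, Y ⊆ Z ∧ LegalX T n M B Z := by
  classical
  have h1 : (T.edgeSet \ ((M ∪ B ∪ Y : Finset (Sym2 Vx)) : Set (Sym2 Vx))).Infinite :=
    edgeSet_infinite.sdiff (Finset.finite_toSet _)
  obtain ⟨Z, hZ1, hZ2⟩ := h1.exists_subset_card_eq (n - Y.card)
  have hd : Disjoint Y Z := by
    rw [Finset.disjoint_left]
    intro e he he'
    have := (hZ1 he').2
    apply this
    simp [he]
  refine ⟨Y ∪ Z, Finset.subset_union_left, ?_, fun e he => ?_⟩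
  · rw [Finset.card_union_of_disjoint hd, hZ2]
    omega
  · rw [Finset.mem_union] at he
    rcases he with he | he
    · exact hY e he
    · have h2 := hZ1 he
      simp only [Finset.coe_union, Set.mem_sdiff, Set.mem_union, Finset.mem_coe, not_or] at h2
      exact ⟨h2.1, h2.2.1.1, h2.2.1.2⟩

lemma reachable_up {B : Set (Sym2 Vx)} {x : Vx} (h : ed x ∉ B) :
    (T.deleteEdges B).Reachable x (up x) := by
  apply SimpleGraph.Adj.reachable
  rw [SimpleGraph.deleteEdges_adj]
  exact ⟨Or.inl rfl, h⟩

/-- all vertices of the path of `w` are joined to the hub `w.tail` when none of its edges is deleted -/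
lemma reachable_tail {B : Set (Sym2 Vx)} {w : List (Fin 9)} (h : ∀ i, ed (w, i) ∉ B) (i : Fin 22) :
    (T.deleteEdges B).Reachable (w, i) (w.tail, 0) := by
  have key : ∀ k : ℕ, ∀ i : Fin 22, i.val + k = 21 →
      (T.deleteEdges B).Reachable (w, i) (w.tail, 0) := by
    intro k
    induction k with
    | zero =>
      intro i hi
      have h1 := reachable_up (h i)
      rwa [up_of_not_lt (x := (w, i)) (by simp only; omega)] at h1
    | succ k ih =>
      intro i hi
      have h1 := reachable_up (h i)
      have h2 := up_of_lt (x := (w, i)) (by simp only; omega)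
      have h3 : up (w, i) = (w, (up (w, i)).2) := Prod.ext h2.1 rfl
      rw [h3] at h1
      refine h1.trans (ih _ ?_)
      rw [h2.2]
      simp only
      omega
  exact key (21 - i.val) i (by omega)

lemma reachable_nil (x : Vx) : T.Reachable x ([], 0) := by
  have h0 : T.deleteEdges ∅ = T := by simp
  obtain ⟨w, i⟩ := x
  induction w generalizing i with
  | nil =>
    have := reachable_tail (B := ∅) (w := []) (fun _ => by simp) i
    rwa [h0] at this
  | cons a w ih =>
    have := reachable_tail (B := ∅) (w := a :: w) (fun _ => by simp) i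
    rw [h0] at this
    exact this.trans (ih 0)

lemma T_connected : T.Connected := by
  rw [SimpleGraph.connected_iff]
  exact ⟨fun x y => (reachable_nil x).trans (reachable_nil y).symm, ⟨([], 0)⟩⟩

/-- A finite set which is closed under the edges which are not deleted contains the component. -/
lemma finite_cluster {B : Set (Sym2 Vx)} {C : Set Vx} (hC : C.Finite) {r : Vx} (hr : r ∈ C)
    (hcl : ∀ x, ed x ∉ B → (x ∈ C ↔ up x ∈ C)) : (cluster T B r).Finite := by
  refine hC.subset ?_
  rintro y ⟨w⟩
  have : ∀ u v : Vx, (T.deleteEdges B).Walk u v → u ∈ C → v ∈ C := by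
    intro u v w
    induction w with
    | nil => exact id
    | cons hadj _ ih =>
      intro hu
      apply ih
      rw [SimpleGraph.deleteEdges_adj] at hadj
      obtain ⟨h1, h2⟩ := hadj
      rcases h1 with h1 | h1
      · rw [← h1] at h2 ⊢
        exact (hcl _ h2).1 hu
      · rw [← h1, Sym2.eq_swap] at h2
        rw [← h1] at hu
        exact (hcl _ h2).2 hu
  exact this _ _ w hr

end Board

/-! ## Maker wins with a head start -/

section Maker

/-- no edge of `B` lies below the hub `u.tail` in the direction of `u` -/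
def Free (u : List (Fin 9)) (B : Finset (Sym2 Vx)) : Prop := ∀ x : Vx, ed x ∈ B → ¬ u <:+ x.1

/-- `H` is a set of hubs joined by paths claimed by Maker, and `A` is a set of arms at `H` whose first
edges are claimed by Maker and below which there is no edge of Breaker. -/
structure St (H A : Finset (List (Fin 9))) (M B : Finset (Sym2 Vx)) : Prop where
  nil_mem : [] ∈ H
  tail_mem : ∀ u ∈ H, u.tail ∈ H
  slots : ∀ u ∈ H, u ≠ [] → ∀ i, ed (u, i) ∈ M
  disj : ∀ e ∈ M, e ∉ B
  bdry : ∀ u ∈ A, u ∉ H ∧ u.tail ∈ H
  first : ∀ u ∈ A, ed (u, 21) ∈ M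
  free : ∀ u ∈ A, Free u B

lemma suffix_mem {H : Finset (List (Fin 9))} (hH : ∀ u ∈ H, u.tail ∈ H) {w : List (Fin 9)}
    (hw : w ∈ H) {u : List (Fin 9)} (h : u <:+ w) : u ∈ H := by
  induction w with
  | nil =>
    rw [List.suffix_nil] at h
    rw [h]
    exact hw
  | cons a w ih =>
    rw [List.suffix_cons_iff] at h
    rcases h with rfl | h
    · exact hw
    · exact ih (hH _ hw) h

lemma eq_of_suffix {H : Finset (List (Fin 9))} (hH : ∀ u ∈ H, u.tail ∈ H) {u u' : List (Fin 9)}
    (h1 : u ∉ H) (h2 : u'.tail ∈ H) (h3 : u <:+ u') : u = u' := by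
  cases u' with
  | nil =>
    rw [List.suffix_nil] at h3
    exact h3
  | cons a v =>
    rw [List.suffix_cons_iff] at h3
    rcases h3 with h3 | h3
    · exact h3
    · exact absurd (suffix_mem hH h2 h3) h1

open Classical in
/-- A claim of Breaker kills at most one arm per edge. -/
lemma dead_le {H : Finset (List (Fin 9))} (hH : ∀ u ∈ H, u.tail ∈ H)
    (A : Finset (List (Fin 9))) (hA : ∀ u ∈ A, u ∉ H ∧ u.tail ∈ H) (Y : Finset (Sym2 Vx)) :
    A.card ≤ (A.filter (fun u => Free u Y)).card + Y.card := by
  classical
  rw [← Finset.card_filter_add_card_filter_not (s := A) (fun u => Free u Y)]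
  refine Nat.add_le_add_left ?_ _
  have h1 : ∀ u : List (Fin 9), ∃ x : Vx, ¬ Free u Y → ed x ∈ Y ∧ u <:+ x.1 := by
    intro u
    by_cases h : Free u Y
    · exact ⟨([], 0), fun h' => absurd h h'⟩
    · unfold Free at h
      push Not at h
      obtain ⟨x, hx⟩ := h
      exact ⟨x, fun _ => hx⟩
  choose f hf using h1
  refine Finset.card_le_card_of_injOn (fun u => ed (f u)) ?_ ?_
  · intro u hu
    rw [Finset.mem_coe, Finset.mem_filter] at hu
    exact (hf u hu.2).1
  · intro u hu u' hu' he
    rw [Finset.mem_coe, Finset.mem_filter] at hu hu'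
    have he := ed_injective he
    have h2 := (hf u hu.2).2
    have h3 := (hf u' hu'.2).2
    rw [← he] at h3
    rcases List.suffix_or_suffix_of_suffix h2 h3 with h | h
    · exact eq_of_suffix hH (hA u hu.1).1 (hA u' hu'.1).2 h
    · exact (eq_of_suffix hH (hA u' hu'.1).1 (hA u hu.1).2 h).symm

open Classical in
/-- the arms at `H` -/
noncomputable def bd (H : Finset (List (Fin 9))) : Finset (List (Fin 9)) :=
  ((Finset.univ ×ˢ H).image (fun p : Fin 9 × List (Fin 9) => p.1 :: p.2)) \ H

lemma mem_bd {H : Finset (List (Fin 9))} {u : List (Fin 9)} (h : u ∈ bd H) :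
    u ∉ H ∧ u.tail ∈ H := by
  classical
  unfold bd at h
  rw [Finset.mem_sdiff, Finset.mem_image] at h
  obtain ⟨⟨⟨a, w⟩, h1, rfl⟩, h2⟩ := h
  rw [Finset.mem_product] at h1
  exact ⟨h2, h1.2⟩

lemma card_bd {H : Finset (List (Fin 9))} (h0 : [] ∈ H) : 8 * H.card + 1 ≤ (bd H).card := by
  classical
  unfold bd
  have h1 : ((Finset.univ ×ˢ H).image (fun p : Fin 9 × List (Fin 9) => p.1 :: p.2)).card =
      9 * H.card := by
    rw [Finset.card_image_of_injective, Finset.card_product, Finset.card_univ, Fintype.card_fin]
    rintro ⟨a, w⟩ ⟨a', w'⟩ h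
    simp only [List.cons.injEq] at h
    exact Prod.ext h.1 h.2
  have h2 := Finset.card_sdiff_add_card_inter
    ((Finset.univ ×ˢ H).image (fun p : Fin 9 × List (Fin 9) => p.1 :: p.2)) H
  have h3 : (((Finset.univ ×ˢ H).image (fun p : Fin 9 × List (Fin 9) => p.1 :: p.2)) ∩ H).card ≤
      H.card - 1 := by
    rw [← Finset.card_erase_of_mem h0]
    refine Finset.card_le_card fun u hu => ?_
    rw [Finset.mem_inter, Finset.mem_image] at hu
    obtain ⟨⟨⟨a, w⟩, _, rfl⟩, h2⟩ := hu
    exact Finset.mem_erase.2 ⟨by simp, h2⟩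
  have h4 : 0 < H.card := Finset.card_pos.2 ⟨_, h0⟩
  omega

/-- When there are more arms than edges of Breaker, some arm is free. -/
lemma exists_free {H A : Finset (List (Fin 9))} {M B : Finset (Sym2 Vx)} (h : St H A M B) {n : ℕ}
    (hn : B.card + n ≤ 8 * H.card + 1) :
    ∃ A0 : Finset (List (Fin 9)), A0.card = n ∧ ∀ u ∈ A0, (u ∉ H ∧ u.tail ∈ H) ∧ Free u B := by
  classical
  have h1 := dead_le h.tail_mem (bd H) (fun u hu => mem_bd hu) B
  have h2 := card_bd h.nil_mem
  obtain ⟨A0, h3, h4⟩ := Finset.exists_subset_card_eq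
    (s := (bd H).filter (fun u => Free u B)) (n := n) (by omega)
  refine ⟨A0, h4, fun u hu => ?_⟩
  have h5 := Finset.mem_filter.1 (h3 hu)
  exact ⟨mem_bd h5.1, h5.2⟩

lemma not_finite {H A : Finset (List (Fin 9))} {M B : Finset (Sym2 Vx)} (h : St H A M B)
    (hn : B.card + 1 ≤ 8 * H.card + 1) : ¬ (cluster T (B : Set (Sym2 Vx)) ([], 0)).Finite := by
  obtain ⟨A0, h1, h2⟩ := exists_free h hn
  obtain ⟨u, hu⟩ := Finset.card_pos.1 (by omega : 0 < A0.card)
  obtain ⟨⟨-, htail⟩, hfree⟩ := h2 u hu
  have hhub : ∀ w, w ∈ H → (T.deleteEdges (B : Set (Sym2 Vx))).Reachable ([], 0) (w, 0) := by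
    intro w
    induction w with
    | nil => intro _; exact SimpleGraph.Reachable.refl _
    | cons a w ih =>
      intro hw
      refine (ih (h.tail_mem _ hw)).trans (reachable_tail (w := a :: w) (fun i => ?_) 0).symm
      exact h.disj _ (h.slots _ hw (by simp) i)
  have hdown : ∀ x : List (Fin 9),
      (T.deleteEdges (B : Set (Sym2 Vx))).Reachable ([], 0) (x ++ u, 0) := by
    intro x
    induction x with
    | nil =>
      refine (hhub _ htail).trans (reachable_tail (w := u) (fun i hi => ?_) 0).symm
      exact hfree (u, i) hi (List.suffix_refl u)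
    | cons a x ih =>
      refine ih.trans (reachable_tail (w := a :: (x ++ u)) (fun i hi => ?_) 0).symm
      exact hfree (a :: (x ++ u), i) hi ⟨a :: x, rfl⟩
  refine Set.infinite_of_injective_forall_mem
    (f := fun n : ℕ => ((List.replicate n (0 : Fin 9) ++ u, (0 : Fin 22)) : Vx)) ?_ (fun n => hdown _)
  intro a b hab
  have := congrArg (fun x : Vx => x.1.length) hab
  simpa using this

/-- the property of the positions maintained by Maker -/
def P (M B : Finset (Sym2 Vx)) : Prop :=
  ∃ H A : Finset (List (Fin 9)), St H A M B ∧ (B.card + 21 ≤ 8 * H.card + 1 ∨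
    (B.card + 15 ≤ 8 * H.card + 1 ∧ 15 ≤ A.card) ∨ (B.card + 17 ≤ 8 * H.card + 1 ∧ 8 ≤ A.card) ∨
    (B.card + 19 ≤ 8 * H.card + 1 ∧ 1 ≤ A.card))

open Classical in
/-- Maker advances `21` arms by one edge. -/
lemma advance {H A : Finset (List (Fin 9))} {M B : Finset (Sym2 Vx)} (h : St H A M B)
    (hn : B.card + 21 ≤ 8 * H.card + 1) : ∃ X, LegalX T 21 M B X ∧ ∀ Y, LegalX T 6 (M ∪ X) B Y →
      ∃ A', St H A' (M ∪ X) (B ∪ Y) ∧ 15 ≤ A'.card ∧ (B ∪ Y).card ≤ B.card + 6 := by
  obtain ⟨A0, h1, h2⟩ := exists_free h hn
  obtain ⟨X, hX1, hX2⟩ := fill 21 M B ((A0.image (fun u => ed (u, 21))).filter (fun e => e ∉ M))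
    (by
      intro e he
      rw [Finset.mem_filter, Finset.mem_image] at he
      obtain ⟨⟨u, hu, rfl⟩, he⟩ := he
      exact ⟨ed_mem _, he, fun h' => (h2 u hu).2 _ h' (List.suffix_refl u)⟩)
    ((Finset.card_filter_le _ _).trans (Finset.card_image_le.trans h1.le))
  refine ⟨X, hX2, fun Y hY => ⟨A0.filter (fun u => Free u Y), ?_, ?_, ?_⟩⟩
  · refine ⟨h.nil_mem, h.tail_mem, fun u hu hu' i => Finset.mem_union_left _ (h.slots u hu hu' i),
      ?_, fun u hu => (h2 u (Finset.mem_filter.1 hu).1).1, ?_, ?_⟩
    · intro e he he'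
      rw [Finset.mem_union] at he'
      rcases he' with he' | he'
      · rw [Finset.mem_union] at he
        rcases he with he | he
        · exact h.disj e he he'
        · exact (hX2.2 e he).2.2 he'
      · exact (hY.2 e he').2.1 he
    · intro u hu
      have hu := (Finset.mem_filter.1 hu).1
      by_cases hM : ed (u, 21) ∈ M
      · exact Finset.mem_union_left _ hM
      · refine Finset.mem_union_right _ (hX1 (Finset.mem_filter.2 ⟨?_, hM⟩))
        exact Finset.mem_image.2 ⟨u, hu, rfl⟩
    · intro u hu x hx hs
      rw [Finset.mem_filter] at hu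
      rw [Finset.mem_union] at hx
      rcases hx with hx | hx
      · exact (h2 u hu.1).2 x hx hs
      · exact hu.2 x hx hs
  · have := dead_le h.tail_mem A0 (fun u hu => (h2 u hu).1) Y
    have := hY.1
    omega
  · have := Finset.card_union_le B Y
    have := hY.1
    omega

open Classical in
/-- Maker completes an advanced arm. -/
lemma complete {H A : Finset (List (Fin 9))} {M B : Finset (Sym2 Vx)} (h : St H A M B)
    (hA : 1 ≤ A.card) : ∃ X, LegalX T 21 M B X ∧ ∀ Y, LegalX T 6 (M ∪ X) B Y →
      ∃ H' A', St H' A' (M ∪ X) (B ∪ Y) ∧ A.card ≤ A'.card + 7 ∧ H'.card = H.card + 1 ∧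
        (B ∪ Y).card ≤ B.card + 6 := by
  obtain ⟨u, hu⟩ := Finset.card_pos.1 hA
  have hcard : ((Finset.univ.image (fun i : Fin 22 => ed (u, i))).filter (fun e => e ∉ M)).card ≤
      21 := by
    have h1 : (Finset.univ.image (fun i : Fin 22 => ed (u, i))).filter (fun e => e ∉ M) ⊆
        (Finset.univ.erase (21 : Fin 22)).image (fun i : Fin 22 => ed (u, i)) := by
      intro e he
      rw [Finset.mem_filter, Finset.mem_image] at he
      obtain ⟨⟨i, _, rfl⟩, he⟩ := he
      refine Finset.mem_image.2 ⟨i, Finset.mem_erase.2 ⟨?_, Finset.mem_univ _⟩, rfl⟩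
      rintro rfl
      exact he (h.first u hu)
    refine (Finset.card_le_card h1).trans (Finset.card_image_le.trans ?_)
    simp
  obtain ⟨X, hX1, hX2⟩ := fill 21 M B
    ((Finset.univ.image (fun i : Fin 22 => ed (u, i))).filter (fun e => e ∉ M))
    (by
      intro e he
      rw [Finset.mem_filter, Finset.mem_image] at he
      obtain ⟨⟨i, _, rfl⟩, he⟩ := he
      exact ⟨ed_mem _, he, fun h' => h.free u hu _ h' (List.suffix_refl u)⟩) hcard
  refine ⟨X, hX2, fun Y hY => ⟨insert u H, (A.erase u).filter (fun u => Free u Y), ?_, ?_, ?_, ?_⟩⟩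
  · refine ⟨Finset.mem_insert_of_mem h.nil_mem, ?_, ?_, ?_, ?_, ?_, ?_⟩
    · intro v hv
      rw [Finset.mem_insert] at hv
      rcases hv with rfl | hv
      · exact Finset.mem_insert_of_mem (h.bdry _ hu).2
      · exact Finset.mem_insert_of_mem (h.tail_mem _ hv)
    · intro v hv hv' i
      rw [Finset.mem_insert] at hv
      rcases hv with rfl | hv
      · by_cases hM : ed (v, i) ∈ M
        · exact Finset.mem_union_left _ hM
        · refine Finset.mem_union_right _ (hX1 (Finset.mem_filter.2 ⟨?_, hM⟩))
          exact Finset.mem_image.2 ⟨i, Finset.mem_univ _, rfl⟩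
      · exact Finset.mem_union_left _ (h.slots v hv hv' i)
    · intro e he he'
      rw [Finset.mem_union] at he'
      rcases he' with he' | he'
      · rw [Finset.mem_union] at he
        rcases he with he | he
        · exact h.disj e he he'
        · exact (hX2.2 e he).2.2 he'
      · exact (hY.2 e he').2.1 he
    · intro v hv
      rw [Finset.mem_filter, Finset.mem_erase] at hv
      have := h.bdry v hv.1.2
      refine ⟨fun hv' => ?_, Finset.mem_insert_of_mem this.2⟩
      rw [Finset.mem_insert] at hv'
      exact hv'.elim hv.1.1 this.1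
    · intro v hv
      rw [Finset.mem_filter, Finset.mem_erase] at hv
      exact Finset.mem_union_left _ (h.first v hv.1.2)
    · intro v hv x hx hs
      rw [Finset.mem_filter, Finset.mem_erase] at hv
      rw [Finset.mem_union] at hx
      rcases hx with hx | hx
      · exact h.free v hv.1.2 x hx hs
      · exact hv.2 x hx hs
  · have h1 := dead_le h.tail_mem (A.erase u) (fun v hv => h.bdry v (Finset.mem_of_mem_erase hv)) Y
    have h2 := Finset.card_erase_of_mem hu
    have h3 := hY.1
    omega
  · exact Finset.card_insert_of_notMem (h.bdry u hu).1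
  · have := Finset.card_union_le B Y
    have := hY.1
    omega

open Classical in
lemma P_step (M B : Finset (Sym2 Vx)) (h : P M B) : ∃ X, LegalX T 21 M B X ∧
    ∀ Y, LegalX T 6 (M ∪ X) B Y → P (M ∪ X) (B ∪ Y) := by
  obtain ⟨H, A, hSt, hc⟩ := h
  rcases hc with hc | hc
  · obtain ⟨X, hX, hXY⟩ := advance hSt hc
    refine ⟨X, hX, fun Y hY => ?_⟩
    obtain ⟨A', h1, h2, h3⟩ := hXY Y hY
    exact ⟨H, A', h1, by omega⟩
  · obtain ⟨X, hX, hXY⟩ := complete hSt (by omega)
    refine ⟨X, hX, fun Y hY => ?_⟩
    obtain ⟨H', A', h1, h2, h3, h4⟩ := hXY Y hY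
    exact ⟨H', A', h1, by omega⟩

/-- the head start: the two paths from the hub `[]` to the hubs `[0]` and `[1]` -/
def headStart : Finset (Sym2 Vx) :=
  (Finset.univ ×ˢ Finset.univ).image (fun p : Fin 2 × Fin 22 => ed ([⟨p.1.val, by omega⟩], p.2))

theorem not_breakerWins : ¬ BreakerWins T 21 6 ([], 0) headStart := by
  classical
  refine not_winsFrom P (fun M B => ?_) ?_ P_step ?_
  · obtain ⟨X, -, hX⟩ := fill 21 M B ∅ (by simp) (by simp)
    exact ⟨X, hX⟩
  · rintro M B ⟨H, A, hSt, hc⟩
    exact not_finite hSt (by omega)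
  · refine ⟨{[], [0], [1]}, ∅, ⟨by simp, ?_, ?_, ?_, by simp, by simp, by simp⟩, Or.inl ?_⟩
    · intro u hu
      simp only [Finset.mem_insert, Finset.mem_singleton] at hu
      rcases hu with rfl | rfl | rfl <;> simp
    · intro u hu hu' i
      simp only [Finset.mem_insert, Finset.mem_singleton] at hu
      rcases hu with rfl | rfl | rfl
      · exact absurd rfl hu'
      · exact Finset.mem_image.2 ⟨(0, i), by simp, rfl⟩
      · exact Finset.mem_image.2 ⟨(1, i), by simp, rfl⟩
    · intro e _
      simp
    · have : ({[], [0], [1]} : Finset (List (Fin 9))).card = 3 := by decide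
      rw [this]
      simp

end Maker

/-! ## Breaker wins from every root without a head start -/

section Breaker

/-- an edge of the path of `u` is claimed by Breaker -/
def Killed (B : Finset (Sym2 Vx)) (u : List (Fin 9)) : Prop := ∃ i, ed (u, i) ∈ B

/-- all edges of the path of `u` are claimed by Maker -/
def Full (M : Finset (Sym2 Vx)) (u : List (Fin 9)) : Prop := ∀ i, ed (u, i) ∈ M

/-- the vertex `r` lies on a path which ends at the hub `g`, and Maker has claimed the part of this
path between them -/
def Attached (M : Finset (Sym2 Vx)) (r : Vx) (g : List (Fin 9)) : Prop :=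
  (r.1 = g ∧ ∀ j < r.2, ed (r.1, j) ∈ M) ∨ (r.1.tail = g ∧ ∀ j, r.2 ≤ j → ed (r.1, j) ∈ M)

/-- exactly one of the ends of the path of `u` belongs to `H` -/
def Outer (H : Finset (List (Fin 9))) (u : List (Fin 9)) : Prop :=
  (u ∈ H ∧ u.tail ∉ H) ∨ (u ∉ H ∧ u.tail ∈ H)

lemma finish {H : Finset (List (Fin 9))} {M B : Finset (Sym2 Vx)} {r : Vx} {g : List (Fin 9)}
    (hg : g ∈ H) (ha : Attached M r g) (hd : ∀ e ∈ M, e ∉ B) (hk : ∀ u, Outer H u → Killed B u) :
    (cluster T (B : Set (Sym2 Vx)) r).Finite := by
  classical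
  have h1 : ∀ u : List (Fin 9), ∃ i : Fin 22, Outer H u → ed (u, i) ∈ B := by
    intro u
    by_cases h : Outer H u
    · obtain ⟨i, hi⟩ := hk u h
      exact ⟨i, fun _ => hi⟩
    · exact ⟨0, fun h' => absurd h' h⟩
  choose b hb using h1
  set C : Set Vx := {x | (x.1 ∈ H ∧ (x.1.tail ∈ H ∨ x.2 ≤ b x.1)) ∨
    (x.1 ∉ H ∧ x.1.tail ∈ H ∧ b x.1 < x.2)} with hC
  refine finite_cluster (C := C) ?_ ?_ ?_
  · have h2 : {u : List (Fin 9) | u ∈ H ∨ u.tail ∈ H}.Finite := by
      have h3 : ((insert ([] : List (Fin 9)) (H ∪ (Finset.univ ×ˢ H).image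
          (fun p : Fin 9 × List (Fin 9) => p.1 :: p.2)) : Finset (List (Fin 9))) :
            Set (List (Fin 9))).Finite := Finset.finite_toSet _
      refine h3.subset ?_
      intro u hu
      rw [Finset.mem_coe, Finset.mem_insert, Finset.mem_union, Finset.mem_image]
      rcases hu with hu | hu
      · exact Or.inr (Or.inl hu)
      · cases u with
        | nil => exact Or.inl rfl
        | cons a w => exact Or.inr (Or.inr ⟨(a, w), by simpa using hu, rfl⟩)
    refine (h2.prod (Set.finite_univ (α := Fin 22))).subset ?_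
    rintro ⟨u, i⟩ hx
    refine ⟨?_, Set.mem_univ _⟩
    rcases hx with hx | hx
    · exact Or.inl hx.1
    · exact Or.inr hx.2.1
  · rcases ha with ⟨h2, h3⟩ | ⟨h2, h3⟩
    · have hr : r.1 ∈ H := by rw [h2]; exact hg
      refine Or.inl ⟨hr, ?_⟩
      by_cases ht : r.1.tail ∈ H
      · exact Or.inl ht
      · refine Or.inr ?_
        by_contra hlt
        exact hd _ (h3 _ (not_le.1 hlt)) (hb r.1 (Or.inl ⟨hr, ht⟩))
    · have hr : r.1.tail ∈ H := by rw [h2]; exact hg
      by_cases ht : r.1 ∈ H
      · exact Or.inl ⟨ht, Or.inl hr⟩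
      · refine Or.inr ⟨ht, hr, ?_⟩
        by_contra hlt
        exact hd _ (h3 _ (not_lt.1 hlt)) (hb r.1 (Or.inr ⟨ht, hr⟩))
  · rintro ⟨u, i⟩ hx
    by_cases hi : i.val < 21
    · have h2 := up_of_lt (x := (u, i)) hi
      have h3 : Outer H u → b u ≠ i := by
        intro ho he
        apply hx
        rw [← he]
        exact hb u ho
      have h4 : ((up (u, i)).2 ≤ b u ↔ i < b u) := by
        rw [Fin.le_def, Fin.lt_def, h2.2]
        exact Iff.rfl
      have h5 : (b u < (up (u, i)).2 ↔ b u ≤ i) := by
        rw [Fin.le_def, Fin.lt_def, h2.2]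
        exact Nat.lt_succ_iff
      rw [hC]
      simp only [Set.mem_ofPred_eq]
      rw [h2.1]
      simp only
      rw [h4, h5]
      by_cases hu : u ∈ H
      · by_cases ht : u.tail ∈ H
        · simp [hu, ht]
        · have := h3 (Or.inl ⟨hu, ht⟩)
          simp only [hu, ht, true_and, false_or, not_true_eq_false, false_and, or_false]
          constructor
          · intro h
            exact lt_of_le_of_ne h (Ne.symm this)
          · intro h
            exact h.le
      · by_cases ht : u.tail ∈ H
        · have := h3 (Or.inr ⟨hu, ht⟩)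
          simp only [hu, ht, true_and, false_or, not_false_eq_true, false_and]
          constructor
          · intro h
            exact h.le
          · intro h
            exact lt_of_le_of_ne h this
        · simp [hu, ht]
    · have h2 := up_of_not_lt (x := (u, i)) hi
      have hi' : i = 21 := by
        apply Fin.ext
        have := i.2
        have h21 : (21 : Fin 22).val = 21 := rfl
        omega
      have h3 : Outer H u → b u ≠ 21 := by
        intro ho he
        apply hx
        rw [hi', ← he]
        exact hb u ho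
      rw [hC]
      simp only [Set.mem_ofPred_eq]
      rw [h2, hi']
      simp only
      have hle : ∀ c : Fin 22, c ≤ 21 := by
        intro c
        rw [Fin.le_def]
        have := c.2
        have h21 : (21 : Fin 22).val = 21 := rfl
        omega
      have hneg : ∀ c : Fin 22, ¬ c < 0 := fun c => Nat.not_lt_zero _
      have h0 : ∀ c : Fin 22, 0 ≤ c := fun c => Nat.zero_le _
      by_cases hu : u ∈ H
      · by_cases ht : u.tail ∈ H
        · simp [hu, ht]
        · have h4 : ¬ (21 : Fin 22) ≤ b u := fun h =>
            h3 (Or.inl ⟨hu, ht⟩) (le_antisymm (hle _) h)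
          simp only [hu, ht, true_and, false_or, not_true_eq_false, false_and, or_false,
            h4, not_false_eq_true, false_iff, not_and, not_lt]
          intro _
          exact h0 _
      · by_cases ht : u.tail ∈ H
        · have h4 : b u < 21 := lt_of_le_of_ne (hle _) (h3 (Or.inr ⟨hu, ht⟩))
          simp only [hu, ht, true_and, false_or, not_false_eq_true, false_and, h4, true_iff,
            not_true_eq_false, or_false]
          exact Or.inr (h0 _)
        · simp only [hu, ht, false_and, and_false, or_false, false_iff, not_or, not_and, not_lt,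
            not_false_eq_true, true_and]
          intro _
          exact h0 _

open Classical in
lemma kill {M B : Finset (Sym2 Vx)} (S : Finset (List (Fin 9)))
    (hS : ∀ u ∈ S, ¬ Killed B u ∧ ¬ Full M u) (hc : S.card ≤ 6) :
    ∃ Y, LegalX T 6 M B Y ∧ ∀ u ∈ S, Killed Y u := by
  have h1 : ∀ u : List (Fin 9), ∃ i : Fin 22, u ∈ S → ed (u, i) ∉ M := by
    intro u
    by_cases h : u ∈ S
    · have := (hS u h).2
      unfold Full at this
      push Not at this
      obtain ⟨i, hi⟩ := this
      exact ⟨i, fun _ => hi⟩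
    · exact ⟨0, fun h' => absurd h' h⟩
  choose f hf using h1
  obtain ⟨Y, hY1, hY2⟩ := fill 6 M B (S.image (fun u => ed (u, f u))) (by
    intro e he
    obtain ⟨u, hu, rfl⟩ := Finset.mem_image.1 he
    exact ⟨ed_mem _, hf u hu, fun h => (hS u hu).1 ⟨_, h⟩⟩) (Finset.card_image_le.trans hc)
  exact ⟨Y, hY2, fun u hu => ⟨f u, hY1 (Finset.mem_image.2 ⟨u, hu, rfl⟩)⟩⟩

lemma full_card {M : Finset (Sym2 Vx)} (S : Finset (List (Fin 9))) (h : ∀ u ∈ S, Full M u) :
    22 * S.card ≤ M.card := by
  classical
  have h1 : (S ×ˢ (Finset.univ : Finset (Fin 22))).card ≤ M.card := by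
    refine Finset.card_le_card_of_injOn (fun x : Vx => ed x) ?_ (ed_injective.injOn)
    rintro ⟨u, i⟩ hx
    rw [Finset.mem_coe, Finset.mem_product] at hx
    exact h u hx.1 i
  rw [Finset.card_product, Finset.card_univ, Fintype.card_fin] at h1
  omega

/-- the direction (as seen from the hub `g`) in which the path of a word lies -/
def dr (g : List (Fin 9)) : List (Fin 9) → List (Fin 9)
  | [] => g
  | a :: v => if v = g then a :: g else dr g v

lemma dr_of_length_le {g : List (Fin 9)} {v : List (Fin 9)} (h : v.length ≤ g.length) :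
    dr g v = g := by
  induction v with
  | nil => rfl
  | cons a v ih =>
    rw [dr, if_neg]
    · exact ih (by rw [List.length_cons] at h; omega)
    · rintro rfl
      rw [List.length_cons] at h
      omega

lemma dr_cons (g : List (Fin 9)) (a : Fin 9) : dr g (a :: g) = a :: g := by
  rw [dr, if_pos rfl]

lemma dr_cons_cons (g : List (Fin 9)) (a b : Fin 9) : dr g (b :: a :: g) = a :: g := by
  rw [dr, if_neg, dr_cons]
  intro h
  have := congrArg List.length h
  rw [List.length_cons] at this
  omega

open Classical in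
/-- the number of edges in `M` which lie in direction `d` as seen from the hub `g` -/
noncomputable def z (g : List (Fin 9)) (M : Finset (Sym2 Vx)) (d : List (Fin 9)) : ℕ :=
  (M.filter (fun e => ∃ x, e = ed x ∧ dr g x.1 = d)).card

open Classical in
lemma card_four_le (g : List (Fin 9)) (M : Finset (Sym2 Vx)) (D : Finset (List (Fin 9))) :
    4 * (D.filter (fun d => 4 ≤ z g M d)).card ≤ M.card := by
  have h1 : ((D.filter (fun d => 4 ≤ z g M d)).biUnion
      (fun d => M.filter (fun e => ∃ x, e = ed x ∧ dr g x.1 = d))).card =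
      ∑ d ∈ D.filter (fun d => 4 ≤ z g M d), z g M d := by
    rw [Finset.card_biUnion]
    · rfl
    · intro d _ d' _ hne
      rw [Function.onFun, Finset.disjoint_left]
      intro e he he'
      rw [Finset.mem_filter] at he he'
      obtain ⟨_, x, hx, rfl⟩ := he
      obtain ⟨_, y, hy, rfl⟩ := he'
      apply hne
      rw [ed_injective (hx.symm.trans hy)]
  have h2 : ((D.filter (fun d => 4 ≤ z g M d)).biUnion
      (fun d => M.filter (fun e => ∃ x, e = ed x ∧ dr g x.1 = d))) ⊆ M := by
    intro e he
    rw [Finset.mem_biUnion] at he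
    obtain ⟨d, _, he⟩ := he
    exact (Finset.mem_filter.1 he).1
  have h3 := Finset.card_le_card h2
  rw [h1] at h3
  have h4 : (D.filter (fun d => 4 ≤ z g M d)).card • 4 ≤
      ∑ d ∈ D.filter (fun d => 4 ≤ z g M d), z g M d :=
    Finset.card_nsmul_le_sum _ _ _ fun d hd => (Finset.mem_filter.1 hd).2
  rw [smul_eq_mul] at h4
  omega

open Classical in
/-- the words of the paths at the hub `g` -/
noncomputable def dirs (g : List (Fin 9)) : Finset (List (Fin 9)) :=
  Finset.univ.image (fun a : Fin 9 => a :: g) ∪ (if g = [] then ∅ else {g})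

lemma mem_dirs {g u : List (Fin 9)} : u ∈ dirs g ↔ (∃ a, u = a :: g) ∨ (g ≠ [] ∧ u = g) := by
  classical
  unfold dirs
  rw [Finset.mem_union, Finset.mem_image]
  split_ifs with h
  · simp [h, eq_comm]
  · simp [h, eq_comm]

lemma card_dirs_le (g : List (Fin 9)) : (dirs g).card ≤ 10 := by
  classical
  unfold dirs
  refine (Finset.card_union_le _ _).trans ?_
  have h1 : (Finset.univ.image (fun a : Fin 9 => a :: g)).card ≤ 9 :=
    Finset.card_image_le.trans (by simp)
  have h2 : (if g = [] then (∅ : Finset (List (Fin 9))) else {g}).card ≤ 1 := by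
    split_ifs <;> simp
  omega

lemma le_card_dirs (g : List (Fin 9)) : 9 ≤ (dirs g).card := by
  classical
  have h1 : (Finset.univ.image (fun a : Fin 9 => a :: g)).card = 9 := by
    rw [Finset.card_image_of_injective]
    · simp
    · intro a b h
      simpa using h
  exact h1.symm.le.trans (Finset.card_le_card Finset.subset_union_left)

lemma attached_mono {M M' : Finset (Sym2 Vx)} (h : M ⊆ M') {r : Vx} {g : List (Fin 9)}
    (ha : Attached M r g) : Attached M' r g := by
  rcases ha with ⟨h1, h2⟩ | ⟨h1, h2⟩
  · exact Or.inl ⟨h1, fun j hj => h (h2 j hj)⟩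
  · exact Or.inr ⟨h1, fun j hj => h (h2 j hj)⟩

lemma disj_step [DecidableEq (Sym2 Vx)] {M B X Y : Finset (Sym2 Vx)} (hd : ∀ e ∈ M, e ∉ B)
    (hX : LegalX T 21 M B X) (hY : LegalX T 6 (M ∪ X) B Y) : ∀ e ∈ M ∪ X, e ∉ B ∪ Y := by
  intro e he he'
  rw [Finset.mem_union] at he'
  rcases he' with he' | he'
  · rw [Finset.mem_union] at he
    rcases he with he | he
    · exact hd e he he'
    · exact (hX.2 e he).2.2 he'
  · exact (hY.2 e he').2.1 he

open Classical in
/-- the third turn -/
lemma stage3 {M B : Finset (Sym2 Vx)} {H O : Finset (List (Fin 9))} {g : List (Fin 9)} {r : Vx}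
    (hd : ∀ e ∈ M, e ∉ B) (hg : g ∈ H) (ha : Attached M r g) (hO : ∀ u, Outer H u → u ∈ O)
    (hU : (O.filter (fun u => ¬ Killed B u)).card ≤ 6)
    (hadv : ∀ u ∈ O, ¬ Killed B u → ∀ i, ed (u, i) ∉ M) :
    BreakerWinsFrom T 21 6 r M B := by
  apply winsFrom_of_turn
  intro X hX
  obtain ⟨Y, hY1, hY2⟩ := kill (M := M ∪ X) (B := B) (O.filter (fun u => ¬ Killed B u)) (by
    intro u hu
    rw [Finset.mem_filter] at hu
    refine ⟨hu.2, fun hf => ?_⟩
    have h1 : Full X u := by
      intro i
      have := hf i
      rw [Finset.mem_union] at this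
      exact this.resolve_left (hadv u hu.1 hu.2 i)
    have h2 := full_card (M := X) {u} (by
      intro v hv
      rw [Finset.mem_singleton] at hv
      rw [hv]
      exact h1)
    rw [Finset.card_singleton, hX.1] at h2
    omega) hU
  refine ⟨Y, hY1, winsFrom_of_finite ?_⟩
  refine finish hg (attached_mono Finset.subset_union_left ha) (disj_step hd hX hY1) ?_
  intro u hu
  by_cases hk : Killed B u
  · obtain ⟨i, hi⟩ := hk
    exact ⟨i, Finset.mem_union_left _ hi⟩
  · obtain ⟨i, hi⟩ := hY2 u (Finset.mem_filter.2 ⟨hO u hu, hk⟩)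
    exact ⟨i, Finset.mem_union_right _ hi⟩

open Classical in
/-- the second turn -/
lemma stage2 {M B : Finset (Sym2 Vx)} {g : List (Fin 9)} {r : Vx} {S : Finset (List (Fin 9))}
    (hM : M.card ≤ 21) (hd : ∀ e ∈ M, e ∉ B) (ha : Attached M r g) (hS : S ⊆ dirs g)
    (hSc : S.card = 6) (hk : ∀ u ∈ S, Killed B u) (hz : ∀ u ∈ dirs g, u ∉ S → z g M u ≤ 3) :
    BreakerWinsFrom T 21 6 r M B := by
  apply winsFrom_of_turn
  intro X hX
  have ha' : Attached (M ∪ X) r g := attached_mono Finset.subset_union_left ha
  have hMX : (M ∪ X).card ≤ 42 := by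
    have := Finset.card_union_le M X
    have := hX.1
    omega
  by_cases hcase : ∀ u ∈ dirs g, ¬ Killed B u → ¬ Full (M ∪ X) u
  · -- no new hub is reached: cut off everything
    have hc : ((dirs g).filter (fun u => ¬ Killed B u)).card ≤ 6 := by
      have h1 : (dirs g).filter (fun u => ¬ Killed B u) ⊆ dirs g \ S := by
        intro u hu
        rw [Finset.mem_filter] at hu
        exact Finset.mem_sdiff.2 ⟨hu.1, fun h => hu.2 (hk u h)⟩
      have h2 := Finset.card_le_card h1
      rw [Finset.card_sdiff_of_subset hS] at h2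
      have := card_dirs_le g
      omega
    obtain ⟨Y, hY1, hY2⟩ := kill (M := M ∪ X) (B := B) _ (fun u hu =>
      ⟨(Finset.mem_filter.1 hu).2, hcase u (Finset.mem_filter.1 hu).1 (Finset.mem_filter.1 hu).2⟩) hc
    refine ⟨Y, hY1, winsFrom_of_finite ?_⟩
    refine finish (H := {g}) (Finset.mem_singleton_self g) ha' (disj_step hd hX hY1) ?_
    intro u hu
    have hu' : u ∈ dirs g := by
      rw [mem_dirs]
      rcases hu with ⟨h1, h2⟩ | ⟨h1, h2⟩
      · rw [Finset.mem_singleton] at h1 h2
        refine Or.inr ⟨?_, h1⟩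
        rintro rfl
        rw [h1] at h2
        exact h2 rfl
      · rw [Finset.mem_singleton] at h1 h2
        cases u with
        | nil => exact absurd h2 h1
        | cons a v =>
          rw [List.tail_cons] at h2
          exact Or.inl ⟨a, by rw [h2]⟩
    by_cases hk' : Killed B u
    · obtain ⟨i, hi⟩ := hk'
      exact ⟨i, Finset.mem_union_left _ hi⟩
    · obtain ⟨i, hi⟩ := hY2 u (Finset.mem_filter.2 ⟨hu', hk'⟩)
      exact ⟨i, Finset.mem_union_right _ hi⟩
  · -- Maker has reached a new hub
    push Not at hcase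
    obtain ⟨us, hus, husk, husf⟩ := hcase
    have husS : us ∉ S := fun h => husk (hk us h)
    obtain ⟨g2, hg2d, hH, hdr⟩ : ∃ g2 : List (Fin 9), us ∈ dirs g2 ∧
        (∀ u, Outer {g, g2} u → u ∈ (dirs g).erase us ∪ (dirs g2).erase us) ∧
        (∀ u ∈ (dirs g2).erase us, dr g u = us) := by
      rw [mem_dirs] at hus
      rcases hus with ⟨a, rfl⟩ | ⟨hg, rfl⟩
      · refine ⟨a :: g, ?_, ?_, ?_⟩
        · rw [mem_dirs]
          exact Or.inr ⟨by simp, rfl⟩
        · intro u hu
          rw [Finset.mem_union, Finset.mem_erase, Finset.mem_erase, mem_dirs, mem_dirs]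
          unfold Outer at hu
          simp only [Finset.mem_insert, Finset.mem_singleton, not_or] at hu
          rcases hu with ⟨h1 | h1, h2, h3⟩ | ⟨⟨h1, h2⟩, h3 | h3⟩
          · subst h1
            refine Or.inl ⟨?_, Or.inr ⟨?_, rfl⟩⟩
            · intro h
              have := congrArg List.length h
              rw [List.length_cons] at this
              omega
            · rintro rfl
              exact h2 rfl
          · rw [h1] at h2
            exact absurd (List.tail_cons) h2
          · cases u with
            | nil => exact absurd h3 h1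
            | cons b v =>
              rw [List.tail_cons] at h3
              subst h3
              exact Or.inl ⟨h2, Or.inl ⟨b, rfl⟩⟩
          · cases u with
            | nil => exact absurd h3 (by simp)
            | cons b v =>
              rw [List.tail_cons] at h3
              subst h3
              exact Or.inr ⟨h2, Or.inl ⟨b, rfl⟩⟩
        · intro u hu
          rw [Finset.mem_erase, mem_dirs] at hu
          rcases hu.2 with ⟨b, hb⟩ | ⟨_, hb⟩
          · rw [hb]
            exact dr_cons_cons g a b
          · exact absurd hb hu.1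
      · cases us with
        | nil => exact absurd rfl hg
        | cons c w =>
          refine ⟨w, ?_, ?_, ?_⟩
          · rw [mem_dirs]
            exact Or.inl ⟨c, rfl⟩
          · intro u hu
            rw [Finset.mem_union, Finset.mem_erase, Finset.mem_erase, mem_dirs, mem_dirs]
            unfold Outer at hu
            simp only [Finset.mem_insert, Finset.mem_singleton, not_or] at hu
            rcases hu with ⟨h1 | h1, h2, h3⟩ | ⟨⟨h1, h2⟩, h3 | h3⟩
            · rw [h1] at h3
              exact absurd (List.tail_cons) h3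
            · subst h1
              refine Or.inr ⟨?_, Or.inr ⟨?_, rfl⟩⟩
              · intro h
                have := congrArg List.length h
                rw [List.length_cons] at this
                omega
              · rintro rfl
                exact h3 rfl
            · cases u with
              | nil => exact absurd h3 (by simp)
              | cons b v =>
                rw [List.tail_cons] at h3
                subst h3
                refine Or.inl ⟨?_, Or.inl ⟨b, rfl⟩⟩
                intro h
                have := congrArg List.length h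
                simp only [List.length_cons] at this
                omega
            · cases u with
              | nil => exact absurd h3 h2
              | cons b v =>
                rw [List.tail_cons] at h3
                subst h3
                exact Or.inr ⟨h1, Or.inl ⟨b, rfl⟩⟩
          · intro u hu
            rw [Finset.mem_erase, mem_dirs] at hu
            apply dr_of_length_le
            rcases hu.2 with ⟨b, hb⟩ | ⟨_, hb⟩
            · rw [hb]
              simp
            · rw [hb]
              simp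
    set O : Finset (List (Fin 9)) := (dirs g).erase us ∪ (dirs g2).erase us with hO
    have hOc : O.card ≤ 18 := by
      rw [hO]
      have h1 := Finset.card_union_le ((dirs g).erase us) ((dirs g2).erase us)
      rw [Finset.card_erase_of_mem hus, Finset.card_erase_of_mem hg2d] at h1
      have := card_dirs_le g
      have := card_dirs_le g2
      omega
    have hSO : S ⊆ O := by
      intro u hu
      refine Finset.mem_union_left _ (Finset.mem_erase.2 ⟨?_, hS hu⟩)
      rintro rfl
      exact husS hu
    set U : Finset (List (Fin 9)) := O.filter (fun u => ¬ Killed B u) with hU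
    have hUc : U.card ≤ 12 := by
      have h1 : U ⊆ O \ S := by
        intro u hu
        rw [hU, Finset.mem_filter] at hu
        exact Finset.mem_sdiff.2 ⟨hu.1, fun h => hu.2 (hk u h)⟩
      have h2 := Finset.card_le_card h1
      rw [Finset.card_sdiff_of_subset hSO] at h2
      omega
    -- the advanced arms
    set Adv : Finset (List (Fin 9)) := U.filter (fun u => ∃ i, ed (u, i) ∈ M ∪ X) with hAdv
    set Adv2 : Finset (List (Fin 9)) :=
      ((dirs g2).erase us).filter (fun u => ∃ i, ed (u, i) ∈ M ∪ X) with hAdv2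
    have hAdv2c : Adv2.card + 22 ≤ z g (M ∪ X) us := by
      have h1 : ∀ u : List (Fin 9), ∃ i : Fin 22, u ∈ Adv2 → ed (u, i) ∈ M ∪ X := by
        intro u
        by_cases h : u ∈ Adv2
        · obtain ⟨i, hi⟩ := (Finset.mem_filter.1 h).2
          exact ⟨i, fun _ => hi⟩
        · exact ⟨0, fun h' => absurd h' h⟩
      choose f hf using h1
      set E1 : Finset (Sym2 Vx) := Adv2.image (fun u => ed (u, f u)) with hE1
      set E2 : Finset (Sym2 Vx) := Finset.univ.image (fun i : Fin 22 => ed (us, i)) with hE2
      have c1 : E1.card = Adv2.card := by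
        refine Finset.card_image_of_injOn ?_
        intro u _ u' _ h
        have := ed_injective h
        exact congrArg Prod.fst this
      have c2 : E2.card = 22 := by
        rw [hE2, Finset.card_image_of_injective, Finset.card_univ, Fintype.card_fin]
        intro i j h
        have := ed_injective h
        exact congrArg Prod.snd this
      have c3 : Disjoint E1 E2 := by
        rw [Finset.disjoint_left]
        intro e he he'
        obtain ⟨u, hu, rfl⟩ := Finset.mem_image.1 he
        obtain ⟨i, _, hi⟩ := Finset.mem_image.1 he'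
        have := ed_injective hi
        have h2 : us = u := congrArg Prod.fst this
        have h3 := (Finset.mem_filter.1 hu).1
        rw [← h2] at h3
        exact Finset.notMem_erase _ _ h3
      have c4 := Finset.card_union_of_disjoint c3
      rw [c1, c2] at c4
      rw [← c4]
      unfold z
      refine Finset.card_le_card ?_
      intro e he
      rw [Finset.mem_union] at he
      rw [Finset.mem_filter]
      rcases he with he | he
      · obtain ⟨u, hu, rfl⟩ := Finset.mem_image.1 he
        exact ⟨hf u hu, _, rfl, hdr u (Finset.mem_filter.1 hu).1⟩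
      · obtain ⟨i, _, rfl⟩ := Finset.mem_image.1 he
        refine ⟨husf i, _, rfl, ?_⟩
        simp only
        rw [mem_dirs] at hus
        rcases hus with ⟨a, rfl⟩ | ⟨_, rfl⟩
        · exact dr_cons g a
        · exact dr_of_length_le le_rfl
    have hzX : z g (M ∪ X) us ≤ z g M us + 21 := by
      unfold z
      rw [Finset.filter_union]
      refine (Finset.card_union_le _ _).trans ?_
      have := (Finset.card_filter_le X (fun e => ∃ x, e = ed x ∧ dr g x.1 = us)).trans hX.1.le
      omega
    have hz3 := hz us hus husS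
    have hAdvc : Adv.card ≤ 6 := by
      have h1 : Adv ⊆ ((dirs g \ S).erase us) ∪ Adv2 := by
        intro u hu
        rw [hAdv, Finset.mem_filter, hU, Finset.mem_filter, hO, Finset.mem_union] at hu
        rw [Finset.mem_union]
        rcases hu.1.1 with h | h
        · rw [Finset.mem_erase] at h
          exact Or.inl (Finset.mem_erase.2 ⟨h.1, Finset.mem_sdiff.2 ⟨h.2, fun h' =>
            hu.1.2 (hk u h')⟩⟩)
        · exact Or.inr (Finset.mem_filter.2 ⟨h, hu.2⟩)
      have h2 := (Finset.card_le_card h1).trans (Finset.card_union_le _ _)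
      have h3 : us ∈ dirs g \ S := Finset.mem_sdiff.2 ⟨hus, husS⟩
      rw [Finset.card_erase_of_mem h3, Finset.card_sdiff_of_subset hS] at h2
      have := card_dirs_le g
      omega
    obtain ⟨S2, hS2a, hS2b, hS2c⟩ := Finset.exists_subsuperset_card_eq
      (s := Adv) (t := U) (n := min 6 U.card) (Finset.filter_subset _ _)
      (le_min hAdvc (Finset.card_le_card (Finset.filter_subset _ _))) (min_le_right _ _)
    obtain ⟨Y, hY1, hY2⟩ := kill (M := M ∪ X) (B := B) S2 (by
      intro u hu
      have hu' := hS2b hu
      rw [hU, Finset.mem_filter] at hu'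
      refine ⟨hu'.2, fun hf => ?_⟩
      have hne : u ≠ us := by
        rintro rfl
        have := hu'.1
        rw [hO, Finset.mem_union, Finset.mem_erase, Finset.mem_erase] at this
        rcases this with h | h
        · exact h.1 rfl
        · exact h.1 rfl
      have h2 := full_card (M := M ∪ X) {u, us} (by
        intro v hv
        rw [Finset.mem_insert, Finset.mem_singleton] at hv
        rcases hv with rfl | rfl
        · exact hf
        · exact husf)
      rw [Finset.card_pair hne] at h2
      omega) (by omega)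
    refine ⟨Y, hY1, ?_⟩
    refine stage3 (H := {g, g2}) (O := O) (g := g) (disj_step hd hX hY1)
      (Finset.mem_insert_self _ _) ha' hH ?_ ?_
    · have h1 : O.filter (fun u => ¬ Killed (B ∪ Y) u) ⊆ U \ S2 := by
        intro u hu
        rw [Finset.mem_filter] at hu
        rw [Finset.mem_sdiff, hU, Finset.mem_filter]
        refine ⟨⟨hu.1, ?_⟩, ?_⟩
        · rintro ⟨i, hi⟩
          exact hu.2 ⟨i, Finset.mem_union_left _ hi⟩
        · intro h
          obtain ⟨i, hi⟩ := hY2 u h
          exact hu.2 ⟨i, Finset.mem_union_right _ hi⟩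
      have h2 := Finset.card_le_card h1
      rw [Finset.card_sdiff_of_subset hS2b, hS2c] at h2
      omega
    · intro u hu hk' i hi
      apply hk'
      have hU' : u ∈ U := Finset.mem_filter.2 ⟨hu, fun ⟨j, hj⟩ =>
        hk' ⟨j, Finset.mem_union_left _ hj⟩⟩
      have : u ∈ Adv := Finset.mem_filter.2 ⟨hU', i, hi⟩
      obtain ⟨j, hj⟩ := hY2 u (hS2a this)
      exact ⟨j, Finset.mem_union_right _ hj⟩

open Classical in
/-- Breaker wins from every root when there is no head start. -/
theorem breakerWins (r : Vx) : BreakerWins T 21 6 r ∅ := by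
  apply winsFrom_of_turn
  intro X hX
  have hM : (∅ ∪ X).card ≤ 21 := by
    rw [Finset.empty_union]
    exact hX.1.le
  set M := ∅ ∪ X with hMdef
  by_cases hatt : ∃ g, Attached M r g
  · obtain ⟨g, ha⟩ := hatt
    have h4 := card_four_le g M (dirs g)
    have h9 := le_card_dirs g
    obtain ⟨S, hSa, hSb, hSc⟩ := Finset.exists_subsuperset_card_eq
      (s := (dirs g).filter (fun d => 4 ≤ z g M d)) (t := dirs g) (n := 6)
      (Finset.filter_subset _ _) (by omega) (by omega)
    obtain ⟨Y, hY1, hY2⟩ := kill (M := M) (B := ∅) S (by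
      intro u hu
      refine ⟨by rintro ⟨i, hi⟩; exact absurd hi (Finset.notMem_empty _), fun hf => ?_⟩
      have h2 := full_card (M := M) {u} (by
        intro v hv
        rw [Finset.mem_singleton] at hv
        rw [hv]
        exact hf)
      rw [Finset.card_singleton] at h2
      omega) (by omega)
    refine ⟨Y, hY1, ?_⟩
    refine stage2 (g := g) (S := S) hM ?_ ha hSb hSc ?_ ?_
    · intro e he he'
      rw [Finset.empty_union] at he'
      exact (hY1.2 e he').2.1 he
    · intro u hu
      obtain ⟨i, hi⟩ := hY2 u hu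
      exact ⟨i, Finset.mem_union_right _ hi⟩
    · intro u hu huS
      by_contra hcon
      exact huS (hSa (Finset.mem_filter.2 ⟨hu, by omega⟩))
  · -- the root is in the interior of a path, and Breaker cuts on both sides
    unfold Attached at hatt
    push Not at hatt
    obtain ⟨j1, hj1, hj1M⟩ := (hatt r.1).1 rfl
    obtain ⟨j2, hj2, hj2M⟩ := (hatt r.1.tail).2 rfl
    obtain ⟨Y, hYa, hYb⟩ := fill 6 M ∅ {ed (r.1, j1), ed (r.1, j2)} (by
      intro e he
      rw [Finset.mem_insert, Finset.mem_singleton] at he
      rcases he with rfl | rfl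
      · exact ⟨ed_mem _, hj1M, Finset.notMem_empty _⟩
      · exact ⟨ed_mem _, hj2M, Finset.notMem_empty _⟩)
      ((Finset.card_insert_le _ _).trans (by simp))
    refine ⟨Y, hYb, winsFrom_of_finite ?_⟩
    have m1 : ed (r.1, j1) ∈ ∅ ∪ Y := Finset.mem_union_right _ (hYa (by simp))
    have m2 : ed (r.1, j2) ∈ ∅ ∪ Y := Finset.mem_union_right _ (hYa (by simp))
    refine finite_cluster (C := {x : Vx | x.1 = r.1 ∧ j1 < x.2 ∧ x.2 ≤ j2}) ?_ ⟨rfl, hj1, hj2⟩ ?_
    · have h1 : (({r.1} : Set (List (Fin 9))) ×ˢ (Set.univ : Set (Fin 22))).Finite :=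
        (Set.finite_singleton _).prod Set.finite_univ
      refine h1.subset ?_
      rintro ⟨u, i⟩ hx
      exact ⟨hx.1, Set.mem_univ _⟩
    · rintro ⟨u, i⟩ hx
      simp only [Set.mem_ofPred_eq]
      by_cases hi : i.val < 21
      · have h2 := up_of_lt (x := (u, i)) hi
        rw [h2.1]
        simp only
        constructor
        · rintro ⟨h3, h4, h5⟩
          subst h3
          refine ⟨rfl, ?_, ?_⟩
          · rw [Fin.lt_def, h2.2]
            rw [Fin.lt_def] at h4
            simp only
            omega
          · rw [Fin.le_def, h2.2]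
            rw [Fin.le_def] at h5
            simp only
            have : i ≠ j2 := by
              rintro rfl
              exact hx m2
            have : i.val ≠ j2.val := fun h => this (Fin.ext h)
            omega
        · rintro ⟨h3, h4, h5⟩
          subst h3
          rw [Fin.lt_def, h2.2] at h4
          rw [Fin.le_def, h2.2] at h5
          simp only at h4 h5
          have : i ≠ j1 := by
            rintro rfl
            exact hx m1
          have : i.val ≠ j1.val := fun h => this (Fin.ext h)
          refine ⟨rfl, ?_, ?_⟩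
          · rw [Fin.lt_def]
            omega
          · rw [Fin.le_def]
            omega
      · have h2 := up_of_not_lt (x := (u, i)) hi
        rw [h2]
        simp only
        constructor
        · rintro ⟨h3, h4, h5⟩
          exfalso
          subst h3
          rw [Fin.le_def] at h5
          have : i = j2 := by
            apply Fin.ext
            have := j2.2
            omega
          subst this
          exact hx m2
        · rintro ⟨h3, h4, h5⟩
          exact absurd h4 (Nat.not_lt_zero _)

end Breaker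

/-- The zero-one law for Maker-Breaker percolation games fails: on some infinite connected graph
Breaker wins the `(p, q)`-percolation game from every root, but for some root and some finite head
start he has no winning strategy. -/
theorem result : ∃ (V : Type) (G : SimpleGraph V) (p q : ℕ), Infinite V ∧ G.Connected ∧
    1 ≤ p ∧ 1 ≤ q ∧ (∀ v : V, BreakerWins G p q v ∅) ∧
    ∃ (v : V) (F : Finset (Sym2 V)), (F : Set (Sym2 V)) ⊆ G.edgeSet ∧ ¬ BreakerWins G p q v F := by
  refine ⟨Vx, T, 21, 6, inferInstance, T_connected, by norm_num, by norm_num, breakerWins,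
    ([], 0), headStart, ?_, not_breakerWins⟩
  intro e he
  rw [Finset.mem_coe, headStart, Finset.mem_image] at he
  obtain ⟨p, _, rfl⟩ := he
  exact ed_mem _

end Pool.Agent.Results.MP_aefbf4_co.ZeroOneLawFails
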